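import Mathlib

/-!
# MP_c71a08_an: the maximal norm of powers for small spectral radius

For `(1 + r)^n ≤ 2` the companion matrix of `(z - r)^n` maximises `|T^m|` (for every `m`) among all `n × n` complex
matrices with `|T| ≤ 1` (maximal row sum) and spectral radius at most `r`.
-/

set_option autoImplicit false

namespace Pool.Agent.Results.MP_c71a08_an.SmallRadius

open Polynomial

/-- The operator norm on `ℓ^∞_n`: the maximal row sum. -/
noncomputable def rowNorm {n : ℕ} (T : Matrix (Fin n) (Fin n) ℂ) : ℝ := ⨆ i, ∑ j, ‖T i j‖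

/-- The companion matrix of `(z - r)^n`, `n = N + 1`: ones above the diagonal, and the negatives of the coefficients
of `(z - r)^n` in the last row. -/
noncomputable def comp (N : ℕ) (r : ℝ) : Matrix (Fin (N + 1)) (Fin (N + 1)) ℂ := fun i j =>
  if (i : ℕ) = N then -(((X - C (r : ℂ)) ^ (N + 1)).coeff j) else if (j : ℕ) = i + 1 then 1 else 0

/-- `M_n(r)`: the supremum of `|T^q|`, `q = n^2 - n + 1`, over all `T` with `|T| ≤ 1` and spectral radius at most `r`. -/
noncomputable def M (n : ℕ) (r : ℝ) : ℝ :=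
  sSup {x : ℝ | ∃ T : Matrix (Fin n) (Fin n) ℂ, rowNorm T ≤ 1 ∧ (∀ μ ∈ spectrum ℂ T, ‖μ‖ ≤ r) ∧
    x = rowNorm (T ^ (n ^ 2 - n + 1))}

/-! ### Remainders of powers of `X` -/

noncomputable def R : List ℂ → ℕ → ℂ[X]
  | [], _ => 0
  | _ :: S, 0 => X ^ S.length
  | x :: S, j + 1 => C x * R (x :: S) j + (X - C x) * R S (j + 1)
termination_by l j => (l.length, j)

noncomputable def Bd (r : ℝ) : ℕ → ℕ → ℕ → ℝ
  | 0, _, _ => 0
  | N + 1, 0, k => if k = N then 1 else 0
  | N + 1, j + 1, k => r * Bd r (N + 1) j k + (if k = 0 then 0 else Bd r N (j + 1) (k - 1)) +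
      r * Bd r N (j + 1) k
termination_by N j => (N, j)

theorem coeff_lin (x : ℂ) (P : ℂ[X]) (k : ℕ) :
    ((X - C x) * P).coeff k = (if k = 0 then 0 else P.coeff (k - 1)) - x * P.coeff k := by
  rw [sub_mul, coeff_sub, coeff_C_mul]
  cases k with
  | zero => simp
  | succ k => simp [coeff_X_mul]

theorem R_dvd : ∀ (l : List ℂ) (j : ℕ),
    (l.map (fun x => X - C x)).prod ∣ X ^ (j + l.length - 1) - R l j := by
  intro l
  induction l with
  | nil => intro j; simp
  | cons x S ih =>
    intro j
    induction j with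
    | zero => rw [R]; simp
    | succ j ihj =>
      rw [R]
      have e1 : j + 1 + (x :: S).length - 1 = j + S.length + 1 := by simp; omega
      have e2 : j + (x :: S).length - 1 = j + S.length := by simp
      rw [e2] at ihj
      have ih' := ih (j + 1)
      have e3 : j + 1 + S.length - 1 = j + S.length := by omega
      rw [e3] at ih'
      rw [e1]
      have e4 : (X : ℂ[X]) ^ (j + S.length + 1) - (C x * R (x :: S) j + (X - C x) * R S (j + 1)) =
          C x * (X ^ (j + S.length) - R (x :: S) j) +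
            (X - C x) * (X ^ (j + S.length) - R S (j + 1)) := by ring
      rw [e4]
      refine dvd_add (Dvd.dvd.mul_left ihj _) ?_
      rw [List.map_cons, List.prod_cons]
      exact mul_dvd_mul_left _ ih'

theorem R_coeff_zero : ∀ (l : List ℂ) (j k : ℕ), l.length ≤ k → (R l j).coeff k = 0 := by
  intro l
  induction l with
  | nil => intro j k _; rw [R]; simp
  | cons x S ih =>
    intro j
    induction j with
    | zero =>
      intro k hk
      rw [R, coeff_X_pow]
      simp only [List.length_cons] at hk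
      rw [if_neg (by omega)]
    | succ j ihj =>
      intro k hk
      rw [R, coeff_add, coeff_C_mul, coeff_lin, ihj k hk]
      simp only [List.length_cons] at hk
      rw [ih (j + 1) k (by omega), if_neg (by omega), ih (j + 1) (k - 1) (by omega)]
      ring

theorem R_bound {r : ℝ} (hr : 0 ≤ r) : ∀ (l : List ℂ), (∀ x ∈ l, ‖x‖ ≤ r) → ∀ (j k : ℕ),
    ‖(R l j).coeff k‖ ≤ Bd r l.length j k := by
  intro l
  induction l with
  | nil => intro _ j k; rw [R]; simp [Bd]
  | cons x S ih =>
    intro hl j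
    have hx : ‖x‖ ≤ r := hl x (by simp)
    have ih' := ih (fun y hy => hl y (by simp [hy]))
    induction j with
    | zero =>
      intro k
      rw [R, coeff_X_pow, List.length_cons, Bd]
      split_ifs <;> simp
    | succ j ihj =>
      intro k
      rw [R, coeff_add, coeff_C_mul, coeff_lin, List.length_cons, Bd]
      have h1 : ‖x * (R (x :: S) j).coeff k‖ ≤ r * Bd r (S.length + 1) j k := by
        rw [norm_mul]
        exact mul_le_mul hx (ihj k) (norm_nonneg _) hr
      have h2 : ‖x * (R S (j + 1)).coeff k‖ ≤ r * Bd r S.length (j + 1) k := by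
        rw [norm_mul]
        exact mul_le_mul hx (ih' (j + 1) k) (norm_nonneg _) hr
      have h3 : ‖(if k = 0 then 0 else (R S (j + 1)).coeff (k - 1) : ℂ)‖ ≤
          (if k = 0 then 0 else Bd r S.length (j + 1) (k - 1)) := by
        split_ifs
        · simp
        · exact ih' (j + 1) (k - 1)
      calc ‖x * (R (x :: S) j).coeff k +
            ((if k = 0 then 0 else (R S (j + 1)).coeff (k - 1)) - x * (R S (j + 1)).coeff k)‖
          ≤ ‖x * (R (x :: S) j).coeff k‖ +
            (‖(if k = 0 then 0 else (R S (j + 1)).coeff (k - 1) : ℂ)‖ +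
              ‖x * (R S (j + 1)).coeff k‖) :=
            (norm_add_le _ _).trans (add_le_add le_rfl (norm_sub_le _ _))
        _ ≤ _ := by linarith

theorem R_replicate (r : ℝ) : ∀ (N j k : ℕ),
    (R (List.replicate N (r : ℂ)) j).coeff k = (-1) ^ (N + k + 1) * (Bd r N j k : ℂ) := by
  intro N
  induction N with
  | zero => intro j k; simp [R, Bd]
  | succ N ih =>
    intro j
    induction j with
    | zero =>
      intro k
      rw [List.replicate_succ, R, coeff_X_pow, List.length_replicate, Bd]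
      split_ifs with h
      · subst h
        have : (-1 : ℂ) ^ (k + 1 + k + 1) = 1 := by
          rw [show k + 1 + k + 1 = 2 * (k + 1) by ring, pow_mul]; simp
        rw [this]; simp
      · simp
    | succ j ihj =>
      intro k
      rw [List.replicate_succ, R, ← List.replicate_succ, coeff_add, coeff_C_mul, coeff_lin, ihj k,
        ih (j + 1) k, Bd]
      cases k with
      | zero =>
        simp only [if_true]
        push_cast
        ring
      | succ k =>
        rw [if_neg (by omega), if_neg (by omega), Nat.add_sub_cancel, ih (j + 1) k]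
        push_cast
        ring

theorem Bd_nonneg {r : ℝ} (hr : 0 ≤ r) (N j k : ℕ) : 0 ≤ Bd r N j k := by
  have := R_bound hr (List.replicate N (r : ℂ)) (fun x hx => by
    rw [List.eq_of_mem_replicate hx]
    simp [abs_of_nonneg hr]) j k
  rw [List.length_replicate] at this
  exact (norm_nonneg _).trans this

/-! ### Row sums -/

def RowLe {n : ℕ} (T : Matrix (Fin n) (Fin n) ℂ) (c : ℝ) : Prop := ∀ i, ∑ j, ‖T i j‖ ≤ c

theorem rowLe_pow {n : ℕ} {T : Matrix (Fin n) (Fin n) ℂ} (h : RowLe T 1) : ∀ k : ℕ, RowLe (T ^ k) 1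
  | 0 => by
    intro i
    rw [pow_zero]
    have : ∑ j, ‖(1 : Matrix (Fin n) (Fin n) ℂ) i j‖ = 1 := by
      rw [Finset.sum_eq_single i]
      · simp
      · intro b _ hb
        rw [Matrix.one_apply_ne (Ne.symm hb)]
        simp
      · simp
    exact this.le
  | k + 1 => by
    intro i
    have ih := rowLe_pow h k
    rw [pow_succ]
    calc ∑ j, ‖(T ^ k * T) i j‖ ≤ ∑ j, ∑ l, ‖(T ^ k) i l‖ * ‖T l j‖ := by
          refine Finset.sum_le_sum fun j _ => ?_
          rw [Matrix.mul_apply]
          refine (norm_sum_le _ _).trans (le_of_eq ?_)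
          exact Finset.sum_congr rfl fun l _ => norm_mul _ _
      _ = ∑ l, ‖(T ^ k) i l‖ * ∑ j, ‖T l j‖ := by
          rw [Finset.sum_comm]
          exact Finset.sum_congr rfl fun l _ => (Finset.mul_sum _ _ _).symm
      _ ≤ ∑ l, ‖(T ^ k) i l‖ * 1 :=
          Finset.sum_le_sum fun l _ => mul_le_mul_of_nonneg_left (h l) (norm_nonneg _)
      _ = ∑ l, ‖(T ^ k) i l‖ := by simp
      _ ≤ 1 := ih i

theorem rowNorm_le_iff {N : ℕ} {T : Matrix (Fin (N + 1)) (Fin (N + 1)) ℂ} {c : ℝ} :
    rowNorm T ≤ c ↔ RowLe T c := by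
  constructor
  · intro h i
    exact (le_ciSup (f := fun i => ∑ j, ‖T i j‖) (Set.finite_range _).bddAbove i).trans h
  · intro h
    exact ciSup_le h

/-! ### The upper bound -/

theorem upper {N : ℕ} {r : ℝ} (hr : 0 ≤ r) {T : Matrix (Fin (N + 1)) (Fin (N + 1)) ℂ}
    (hT : RowLe T 1) (hs : ∀ μ ∈ spectrum ℂ T, ‖μ‖ ≤ r) (j : ℕ) :
    RowLe (T ^ (j + N)) (∑ k ∈ Finset.range (N + 1), Bd r (N + 1) j k) := by
  set l := T.charpoly.roots.toList with hl
  have hsp := IsAlgClosed.splits T.charpoly
  have hmon := T.charpoly_monic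
  have hlen : l.length = N + 1 := by
    rw [hl, Multiset.length_toList, ← hsp.natDegree_eq_card_roots, Matrix.charpoly_natDegree_eq_dim]
    simp
  have hprod : T.charpoly = (l.map (fun x => X - C x)).prod := by
    conv_lhs => rw [hsp.eq_prod_roots_of_monic hmon]
    conv_lhs => rw [← Multiset.coe_toList T.charpoly.roots]
    rw [Multiset.map_coe, Multiset.prod_coe]
  have hbd : ∀ x ∈ l, ‖x‖ ≤ r := by
    intro x hx
    apply hs
    rw [Matrix.mem_spectrum_iff_isRoot_charpoly]
    rw [hl, Multiset.mem_toList] at hx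
    exact isRoot_of_mem_roots hx
  have hd := R_dvd l j
  rw [← hprod, hlen, show j + (N + 1) - 1 = j + N by omega] at hd
  obtain ⟨h, hh⟩ := hd
  have h0 : aeval T (X ^ (j + N) - R l j) = 0 := by
    rw [hh, map_mul, Matrix.aeval_self_charpoly, zero_mul]
  have h1 : T ^ (j + N) = aeval T (R l j) := by
    rw [map_sub, map_pow, aeval_X] at h0
    exact sub_eq_zero.1 h0
  have hdeg : (R l j).natDegree < N + 1 := by
    rw [Nat.lt_succ_iff, natDegree_le_iff_coeff_eq_zero]
    intro k hk
    exact R_coeff_zero l j k (by omega)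
  rw [h1, aeval_eq_sum_range' hdeg]
  intro i
  calc ∑ b, ‖(∑ k ∈ Finset.range (N + 1), (R l j).coeff k • T ^ k) i b‖
      ≤ ∑ b, ∑ k ∈ Finset.range (N + 1), ‖(R l j).coeff k‖ * ‖(T ^ k) i b‖ := by
        refine Finset.sum_le_sum fun b _ => ?_
        rw [Matrix.sum_apply]
        refine (norm_sum_le _ _).trans (le_of_eq ?_)
        refine Finset.sum_congr rfl fun k _ => ?_
        rw [Matrix.smul_apply, smul_eq_mul, norm_mul]
    _ = ∑ k ∈ Finset.range (N + 1), ‖(R l j).coeff k‖ * ∑ b, ‖(T ^ k) i b‖ := by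
        rw [Finset.sum_comm]
        exact Finset.sum_congr rfl fun k _ => (Finset.mul_sum _ _ _).symm
    _ ≤ ∑ k ∈ Finset.range (N + 1), Bd r (N + 1) j k := by
        refine Finset.sum_le_sum fun k _ => ?_
        have e1 := R_bound hr l hbd j k
        rw [hlen] at e1
        have e2 := rowLe_pow hT k i
        calc ‖(R l j).coeff k‖ * ∑ b, ‖(T ^ k) i b‖ ≤ ‖(R l j).coeff k‖ * 1 :=
              mul_le_mul_of_nonneg_left e2 (norm_nonneg _)
          _ ≤ Bd r (N + 1) j k := by rw [mul_one]; exact e1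

/-! ### The companion matrix -/

theorem comp_rowLe {N : ℕ} {r : ℝ} (hr : 0 ≤ r) (h : (1 + r) ^ (N + 1) ≤ 2) :
    RowLe (comp N r) 1 := by
  intro i
  by_cases hi : (i : ℕ) = N
  · have e1 : ∀ j : Fin (N + 1), ‖comp N r i j‖ = r ^ (N + 1 - (j : ℕ)) * ((N + 1).choose j : ℝ) := by
      intro j
      have : (X - C (r : ℂ)) = X + C (-(r : ℂ)) := by rw [C_neg]; ring
      unfold comp
      rw [if_pos hi, this, coeff_X_add_C_pow, norm_neg, norm_mul, norm_pow, norm_neg]
      simp [abs_of_nonneg hr]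
    rw [Finset.sum_congr rfl fun j _ => e1 j,
      Fin.sum_univ_eq_sum_range (fun k => r ^ (N + 1 - k) * ((N + 1).choose k : ℝ)) (N + 1)]
    have e2 := add_pow (1 : ℝ) r (N + 1)
    rw [Finset.sum_range_succ] at e2
    simp only [one_pow, one_mul, Nat.sub_self, pow_zero, Nat.choose_self, Nat.cast_one] at e2
    linarith
  · have hlt : (i : ℕ) + 1 < N + 1 := by have := i.2; omega
    rw [Finset.sum_eq_single (⟨(i : ℕ) + 1, hlt⟩ : Fin (N + 1))]
    · unfold comp
      rw [if_neg hi]
      simp
    · intro b _ hb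
      unfold comp
      rw [if_neg hi, if_neg (fun hc => hb (Fin.ext hc))]
      simp
    · simp

theorem comp_pow_row (N : ℕ) (r : ℝ) : ∀ k : ℕ, k ≤ N → ∀ j : Fin (N + 1),
    (comp N r ^ k) 0 j = if (j : ℕ) = k then 1 else 0
  | 0, _, j => by
    rw [pow_zero, Matrix.one_apply]
    by_cases h : (0 : Fin (N + 1)) = j
    · subst h; simp
    · rw [if_neg h, if_neg]
      intro h'
      exact h (Fin.ext (by simpa using h'.symm))
  | k + 1, hk, j => by
    rw [pow_succ, Matrix.mul_apply, Finset.sum_eq_single (⟨k, by omega⟩ : Fin (N + 1))]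
    · rw [comp_pow_row N r k (by omega)]
      have hkN : ¬ k = N := by omega
      simp [comp, hkN]
    · intro b _ hb
      rw [comp_pow_row N r k (by omega), if_neg (fun hc => hb (Fin.ext hc))]
      simp
    · simp

theorem comp_pow_last (N : ℕ) (r : ℝ) (j : Fin (N + 1)) :
    (comp N r ^ (N + 1)) 0 j = -(((X - C (r : ℂ)) ^ (N + 1)).coeff j) := by
  rw [pow_succ, Matrix.mul_apply, Finset.sum_eq_single (⟨N, by omega⟩ : Fin (N + 1))]
  · rw [comp_pow_row N r N le_rfl]
    unfold comp
    simp
  · intro b _ hb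
    rw [comp_pow_row N r N le_rfl, if_neg (fun hc => hb (Fin.ext hc))]
    simp
  · simp

theorem comp_aeval_row (N : ℕ) (r : ℝ) (P : ℂ[X]) (hP : P.natDegree < N + 1) (j : Fin (N + 1)) :
    (aeval (comp N r) P) 0 j = P.coeff j := by
  rw [aeval_eq_sum_range' hP, Matrix.sum_apply,
    Finset.sum_eq_single (j : ℕ)]
  · rw [Matrix.smul_apply, comp_pow_row N r j (by have := j.2; omega)]
    simp
  · intro b hb hbj
    rw [Matrix.smul_apply, comp_pow_row N r b (by have := Finset.mem_range.1 hb; omega),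
      if_neg (fun hc => hbj hc.symm)]
    simp
  · intro hc
    exact absurd (Finset.mem_range.2 j.2) hc

theorem comp_root_row (N : ℕ) (r : ℝ) (j : Fin (N + 1)) :
    (aeval (comp N r) ((X - C (r : ℂ)) ^ (N + 1))) 0 j = 0 := by
  have hdeg : ((X - C (r : ℂ)) ^ (N + 1)).natDegree < N + 2 := by
    rw [natDegree_pow, natDegree_X_sub_C]; omega
  have hmon : ((X - C (r : ℂ)) ^ (N + 1)).coeff (N + 1) = 1 := by
    have h1 := (monic_X_sub_C (r : ℂ)).pow (N + 1)
    have h2 := h1.coeff_natDegree
    rwa [natDegree_pow, natDegree_X_sub_C, mul_one] at h2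
  rw [aeval_eq_sum_range' hdeg, Finset.sum_range_succ, Matrix.add_apply, Matrix.smul_apply,
    comp_pow_last, hmon, Matrix.sum_apply, Finset.sum_eq_single (j : ℕ)]
  · rw [Matrix.smul_apply, comp_pow_row N r j (by have := j.2; omega)]
    simp
  · intro b hb hbj
    rw [Matrix.smul_apply, comp_pow_row N r b (by have := Finset.mem_range.1 hb; omega),
      if_neg (fun hc => hbj hc.symm)]
    simp
  · intro hc
    exact absurd (Finset.mem_range.2 j.2) hc

theorem comp_root (N : ℕ) (r : ℝ) : aeval (comp N r) ((X - C (r : ℂ)) ^ (N + 1)) = 0 := by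
  set A := aeval (comp N r) ((X - C (r : ℂ)) ^ (N + 1)) with hA
  ext i j
  have h1 : A i j = (comp N r ^ (i : ℕ) * A) 0 j := by
    rw [Matrix.mul_apply, Finset.sum_eq_single i]
    · rw [comp_pow_row N r i (by have := i.2; omega)]
      simp
    · intro b _ hb
      rw [comp_pow_row N r i (by have := i.2; omega), if_neg (fun hc => hb (Fin.ext hc))]
      simp
    · simp
  have h2 : comp N r ^ (i : ℕ) * A = A * comp N r ^ (i : ℕ) := by
    have e : comp N r ^ (i : ℕ) = aeval (comp N r) (X ^ (i : ℕ) : ℂ[X]) := by simp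
    rw [hA, e, ← map_mul, ← map_mul, mul_comm]
  rw [h1, h2, Matrix.mul_apply]
  refine Finset.sum_eq_zero fun x _ => ?_
  rw [hA, comp_root_row, zero_mul]

theorem comp_spectrum (N : ℕ) {r : ℝ} (hr : 0 ≤ r) : ∀ μ ∈ spectrum ℂ (comp N r), ‖μ‖ ≤ r := by
  intro μ hμ
  have h1 := spectrum.subset_polynomial_aeval (comp N r) ((X - C (r : ℂ)) ^ (N + 1))
    (Set.mem_image_of_mem _ hμ)
  rw [comp_root, spectrum.zero_eq, Set.mem_singleton_iff] at h1
  simp only [eval_pow, eval_sub, eval_X, eval_C] at h1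
  have h2 : μ - r = 0 := by
    by_contra hne
    exact pow_ne_zero _ hne h1
  have h3 : μ = (r : ℂ) := sub_eq_zero.1 h2
  rw [h3]
  simp [abs_of_nonneg hr]

theorem comp_value (N : ℕ) {r : ℝ} (hr : 0 ≤ r) (j : ℕ) :
    ∑ b, ‖(comp N r ^ (j + N)) 0 b‖ = ∑ k ∈ Finset.range (N + 1), Bd r (N + 1) j k := by
  have hd := R_dvd (List.replicate (N + 1) (r : ℂ)) j
  rw [List.map_replicate, List.prod_replicate, List.length_replicate,
    show j + (N + 1) - 1 = j + N by omega] at hd
  obtain ⟨h, hh⟩ := hd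
  have h0 : aeval (comp N r) (X ^ (j + N) - R (List.replicate (N + 1) (r : ℂ)) j) = 0 := by
    rw [hh, map_mul, comp_root, zero_mul]
  rw [map_sub, map_pow, aeval_X] at h0
  have h1 := sub_eq_zero.1 h0
  have hdeg : (R (List.replicate (N + 1) (r : ℂ)) j).natDegree < N + 1 := by
    rw [Nat.lt_succ_iff, natDegree_le_iff_coeff_eq_zero]
    intro k hk
    exact R_coeff_zero _ j k (by rw [List.length_replicate]; omega)
  rw [h1, ← Fin.sum_univ_eq_sum_range (fun k => Bd r (N + 1) j k) (N + 1)]
  refine Finset.sum_congr rfl fun b _ => ?_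
  rw [comp_aeval_row N r _ hdeg, R_replicate, norm_mul, norm_pow, norm_neg, norm_one, one_pow,
    one_mul, Complex.norm_real, Real.norm_eq_abs, abs_of_nonneg (Bd_nonneg hr _ _ _)]

/-! ### Closed form -/

theorem Bd_closed (r : ℝ) : ∀ (M i k t : ℕ), k + t = M →
    Bd r (k + t + 1) (i + 1) k = ((i + 1 + k + t).choose k : ℝ) * ((i + t).choose t : ℝ) * r ^ (i + 1 + t) := by
  intro M
  induction M with
  | zero =>
    intro i k t h
    obtain ⟨rfl, rfl⟩ : k = 0 ∧ t = 0 := by omega
    induction i with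
    | zero => simp [Bd]
    | succ i ih =>
      rw [Bd, ih]
      simp [Bd]
      ring
  | succ M ihM =>
    intro i
    induction i with
    | zero =>
      intro k t h
      rw [Bd, Bd]
      rcases Nat.eq_zero_or_pos t with h0 | h0
      · subst h0
        obtain ⟨k', rfl⟩ : ∃ k', k = k' + 1 := ⟨k - 1, by omega⟩
        have e1 := ihM 0 k' 0 (by omega)
        have e2 : Bd r (k' + 1) (0 + 1) (k' + 1) = 0 := by
          have h1 := R_replicate r (k' + 1) (0 + 1) (k' + 1)
          rw [R_coeff_zero _ _ _ (by rw [List.length_replicate])] at h1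
          have h2 := (mul_eq_zero.1 h1.symm).resolve_left (by simp)
          exact_mod_cast h2
        simp only [Nat.add_zero, Nat.zero_add, Nat.add_sub_cancel] at e1 e2 ⊢
        rw [if_pos trivial, if_neg (by omega), e1, e2]
        simp only [Nat.choose_zero_right, Nat.cast_one]
        rw [show (1 + (k' + 1)).choose (k' + 1) = k' + 2 by
          rw [show 1 + (k' + 1) = (k' + 1) + 1 by ring, Nat.choose_succ_self_right],
          show (1 + k').choose k' = k' + 1 by
          rw [show 1 + k' = k' + 1 by ring, Nat.choose_succ_self_right]]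
        push_cast
        ring
      · obtain ⟨t', rfl⟩ : ∃ t', t = t' + 1 := ⟨t - 1, by omega⟩
        rw [if_neg (by omega)]
        have e1 := ihM 0 k t' (by omega)
        have e3 : k + (t' + 1) = k + t' + 1 := by ring
        rw [e3, e1]
        cases k with
        | zero =>
          simp
          ring
        | succ k' =>
          have e2 := ihM 0 k' (t' + 1) (by omega)
          rw [if_neg (by omega), Nat.add_sub_cancel, show k' + 1 + t' + 1 = k' + (t' + 1) + 1 by ring, e2]
          have e4 : (0 + 1 + (k' + 1) + (t' + 1)).choose (k' + 1) =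
              (0 + 1 + k' + (t' + 1)).choose k' + (0 + 1 + (k' + 1) + t').choose (k' + 1) := by
            rw [show 0 + 1 + (k' + 1) + (t' + 1) = (k' + t' + 2) + 1 by ring, Nat.choose_succ_succ,
              show 0 + 1 + k' + (t' + 1) = k' + t' + 2 by ring,
              show 0 + 1 + (k' + 1) + t' = k' + t' + 2 by ring]
          rw [e4]
          simp only [Nat.zero_add, Nat.choose_self]
          push_cast
          ring
    | succ i ihi =>
      intro k t h
      rw [Bd, ihi k t h]
      have key : ∀ (a b c : ℝ), Bd r (k + t) (i + 1 + 1) (k - 1) = a → True := fun _ _ _ _ => trivial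
      clear key
      have hA : (if k = 0 then (0 : ℝ) else Bd r (k + t) (i + 1 + 1) (k - 1)) =
          (if k = 0 then 0 else ((i + 1 + k + t).choose (k - 1) : ℝ) * ((i + 1 + t).choose t : ℝ) *
            r ^ (i + 2 + t)) := by
        cases k with
        | zero => simp
        | succ k' =>
          rw [if_neg (by omega), if_neg (by omega), Nat.add_sub_cancel,
            show k' + 1 + t = k' + t + 1 by ring, ihM (i + 1) k' t (by omega),
            show i + 1 + 1 + k' + t = i + 1 + (k' + 1) + t by ring,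
            show i + 1 + 1 + t = i + 2 + t by ring]
      have hB : Bd r (k + t) (i + 1 + 1) k =
          (if t = 0 then 0 else ((i + 1 + k + t).choose k : ℝ) * ((i + t).choose (t - 1) : ℝ) *
            r ^ (i + 1 + t)) := by
        cases t with
        | zero =>
          rw [if_pos rfl, Nat.add_zero]
          have h1 := R_replicate r k (i + 1 + 1) k
          rw [R_coeff_zero _ _ _ (by rw [List.length_replicate])] at h1
          have h2 := (mul_eq_zero.1 h1.symm).resolve_left (by simp)
          exact_mod_cast h2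
        | succ t' =>
          rw [if_neg (by omega), Nat.add_sub_cancel, show k + (t' + 1) = k + t' + 1 by ring,
            ihM (i + 1) k t' (by omega), show i + 1 + 1 + k + t' = i + 1 + k + (t' + 1) by ring,
            show i + 1 + t' = i + (t' + 1) by ring, show i + 1 + 1 + t' = i + 1 + (t' + 1) by ring]
      rw [hA, hB]
      have p1 : (i + 1 + t).choose t = (i + t).choose t + (if t = 0 then 0 else (i + t).choose (t - 1)) := by
        cases t with
        | zero => simp
        | succ t' =>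
          rw [if_neg (by omega), Nat.add_sub_cancel, show i + 1 + (t' + 1) = (i + (t' + 1)) + 1 by ring,
            Nat.choose_succ_succ]
          ring
      have p2 : (i + 1 + 1 + k + t).choose k = (i + 1 + k + t).choose k +
          (if k = 0 then 0 else (i + 1 + k + t).choose (k - 1)) := by
        cases k with
        | zero => simp
        | succ k' =>
          rw [if_neg (by omega), Nat.add_sub_cancel,
            show i + 1 + 1 + (k' + 1) + t = (i + 1 + (k' + 1) + t) + 1 by ring, Nat.choose_succ_succ]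
          ring
      rw [p2, p1]
      push_cast
      split_ifs <;> ring

/-! ### The theorem -/

theorem le_rowNorm {N : ℕ} (T : Matrix (Fin (N + 1)) (Fin (N + 1)) ℂ) (i : Fin (N + 1)) :
    ∑ j, ‖T i j‖ ≤ rowNorm T :=
  le_ciSup (f := fun i => ∑ j, ‖T i j‖) (Set.finite_range _).bddAbove i

theorem max_pow {N : ℕ} {r : ℝ} (hr : 0 ≤ r) {T : Matrix (Fin (N + 1)) (Fin (N + 1)) ℂ}
    (hT : rowNorm T ≤ 1) (hs : ∀ μ ∈ spectrum ℂ T, ‖μ‖ ≤ r) (m : ℕ) :
    rowNorm (T ^ m) ≤ rowNorm (comp N r ^ m) := by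
  have hT' := rowNorm_le_iff.1 hT
  rcases Nat.lt_or_ge m (N + 1) with hm | hm
  · have h1 : rowNorm (T ^ m) ≤ 1 := rowNorm_le_iff.2 (rowLe_pow hT' m)
    have h2 : ∑ b, ‖(comp N r ^ m) 0 b‖ = 1 := by
      rw [Finset.sum_eq_single (⟨m, hm⟩ : Fin (N + 1))]
      · rw [comp_pow_row N r m (by omega)]
        simp
      · intro b _ hb
        rw [comp_pow_row N r m (by omega), if_neg (fun hc => hb (Fin.ext hc))]
        simp
      · simp
    exact h1.trans (h2 ▸ le_rowNorm (comp N r ^ m) 0)
  · obtain ⟨j, rfl⟩ : ∃ j, m = j + N := ⟨m - N, by omega⟩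
    have h1 := rowNorm_le_iff.2 (upper hr hT' hs j)
    rw [← comp_value N hr j] at h1
    exact h1.trans (le_rowNorm (comp N r ^ (j + N)) 0)

theorem comp_norm {N : ℕ} {r : ℝ} (hr : 0 ≤ r) (h : (1 + r) ^ (N + 1) ≤ 2) (j : ℕ) :
    rowNorm (comp N r ^ (j + N)) = ∑ k ∈ Finset.range (N + 1), Bd r (N + 1) j k := by
  refine le_antisymm (rowNorm_le_iff.2 (upper hr (comp_rowLe hr h) (comp_spectrum N hr) j)) ?_
  rw [← comp_value N hr j]
  exact le_rowNorm (comp N r ^ (j + N)) 0

/-- Let `n = N + 1` and `(1 + r)^n ≤ 2`. The companion matrix of `(z - r)^n` has norm at most one and spectral radius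
at most `r`, and it maximises `|T^m|` for every `m`; in particular
`M_n(r) = ∑_(k < n) binom(q, k) binom(q - k - 1, n - 1 - k) r^(q - k)`, `q = n^2 - n + 1`. -/
theorem result (N : ℕ) (r : ℝ) (hr : 0 ≤ r) (h : (1 + r) ^ (N + 1) ≤ 2) :
    (rowNorm (comp N r) ≤ 1 ∧ (∀ μ ∈ spectrum ℂ (comp N r), ‖μ‖ ≤ r) ∧
      ∀ T : Matrix (Fin (N + 1)) (Fin (N + 1)) ℂ, rowNorm T ≤ 1 → (∀ μ ∈ spectrum ℂ T, ‖μ‖ ≤ r) →
        ∀ m : ℕ, rowNorm (T ^ m) ≤ rowNorm (comp N r ^ m)) ∧
    M (N + 1) r = ∑ k ∈ Finset.range (N + 1),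
      (((N + 1) ^ 2 - (N + 1) + 1).choose k : ℝ) *
        (((N + 1) ^ 2 - (N + 1) + 1 - k - 1).choose (N - k) : ℝ) *
          r ^ ((N + 1) ^ 2 - (N + 1) + 1 - k) := by
  have hc1 : rowNorm (comp N r) ≤ 1 := rowNorm_le_iff.2 (comp_rowLe hr h)
  have hc2 := comp_spectrum N hr
  refine ⟨⟨hc1, hc2, fun T hT hs m => max_pow hr hT hs m⟩, ?_⟩
  have hq : (N + 1) ^ 2 - (N + 1) + 1 = (N ^ 2 + 1) + N := by
    have : (N + 1) ^ 2 = N ^ 2 + N + (N + 1) := by ring
    rw [this, Nat.add_sub_cancel]
    ring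
  have hM : M (N + 1) r = rowNorm (comp N r ^ ((N + 1) ^ 2 - (N + 1) + 1)) := by
    refine IsGreatest.csSup_eq ⟨⟨comp N r, hc1, hc2, rfl⟩, ?_⟩
    rintro x ⟨T, hT, hs, rfl⟩
    exact max_pow hr hT hs _
  rw [hM, hq, comp_norm hr h]
  refine Finset.sum_congr rfl fun k hk => ?_
  obtain ⟨t, ht⟩ : ∃ t, N = k + t := ⟨N - k, by have := Finset.mem_range.1 hk; omega⟩
  have e := Bd_closed r N (N ^ 2) k t ht.symm
  rw [← ht] at e
  rw [e, show N ^ 2 + 1 + k + t = N ^ 2 + 1 + N by rw [ht]; ring,
    show N ^ 2 + 1 + N - k - 1 = N ^ 2 + t by omega, show N - k = t by omega,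
    show N ^ 2 + 1 + N - k = N ^ 2 + 1 + t by omega]

end Pool.Agent.Results.MP_c71a08_an.SmallRadius
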